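import Pool.Agent.Helper88.Ric.Stmts

/-!
MP_092777_ag, module ETALE: étale presentations give compact surfaces with Kähler structures.
-/

set_option autoImplicit false

open scoped ContDiff Manifold Topology MatrixGroups LinearAlgebra.Projectivization
open Complex

noncomputable section

namespace RicP

variable {D : EtaleData}

/-- points of the disjoint union -/
abbrev EtPt (D : EtaleData) : Type := Σ i : D.ι, {x : E // x ∈ D.U i}

/-- the equivalence relation -/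
def etSetoid (hD : D.Good) : Setoid (EtPt D) where
  r p q := D.R p.1 p.2 q.1 q.2
  iseqv :=
    ⟨fun p => hD.refl p.1 p.2 p.2.2,
      fun {p q} h => hD.symm p.1 q.1 p.2 p.2.2 q.2 q.2.2 h,
      fun {p q r} h h' => hD.trans p.1 q.1 r.1 p.2 p.2.2 q.2 q.2.2 r.2 r.2.2 h h'⟩

/-- the quotient -/
def EtX (hD : D.Good) : Type := Quotient (etSetoid hD)

instance etTop (hD : D.Good) : TopologicalSpace (EtX hD) :=
  inferInstanceAs (TopologicalSpace (Quotient (etSetoid hD)))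

/-- the projection -/
def etMk (hD : D.Good) (p : EtPt D) : EtX hD := Quotient.mk (etSetoid hD) p

theorem etMk_eq_iff (hD : D.Good) (p q : EtPt D) :
    etMk hD p = etMk hD q ↔ D.R p.1 p.2 q.1 q.2 := by
  constructor
  · intro h
    exact Quotient.exact h
  · intro h
    exact Quotient.sound (s := etSetoid hD) h

theorem etMk_surj (hD : D.Good) : Function.Surjective (etMk hD) := Quotient.mk_surjective

theorem etMk_cont (hD : D.Good) : Continuous (etMk hD) := continuous_quotient_mk'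

theorem etMk_open (hD : D.Good) : IsOpenMap (etMk hD) := by
  intro W hW
  have hq : Topology.IsQuotientMap (etMk hD) := isQuotientMap_quotient_mk'
  rw [← hq.isOpen_preimage, isOpen_sigma_iff]
  intro i
  rw [isOpen_iff_mem_nhds]
  rintro x ⟨q, hqW, hqx⟩
  have hR : D.R i x q.1 q.2 := (etMk_eq_iff hD ⟨i, x⟩ q).1 hqx.symm
  obtain ⟨h, hxs, hhx, hsU, htU, -, -, hRh, -⟩ := hD.etale i q.1 x x.2 q.2 q.2.2 hR
  have hWj : IsOpen (Sigma.mk q.1 ⁻¹' W) := (isOpen_sigma_iff.1 hW) q.1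
  obtain ⟨O, hO, hOW⟩ := isOpen_induced_iff.1 hWj
  have hop : IsOpen (h.source ∩ h ⁻¹' O) := h.isOpen_inter_preimage hO
  have hmem : (x : E) ∈ h.source ∩ h ⁻¹' O := by
    refine ⟨hxs, ?_⟩
    show h x ∈ O
    rw [hhx]
    have : q.2 ∈ (Subtype.val ⁻¹' O : Set {x : E // x ∈ D.U q.1}) := by
      rw [hOW]
      exact hqW
    exact this
  have hop2 : IsOpen ((Subtype.val : {x : E // x ∈ D.U i} → E) ⁻¹' (h.source ∩ h ⁻¹' O)) :=
    hop.preimage continuous_subtype_val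
  refine Filter.mem_of_superset (hop2.mem_nhds hmem) ?_
  intro x' hx'
  have hx1 : (x' : E) ∈ h.source := hx'.1
  have hx2 : h x' ∈ O := hx'.2
  have hy : h x' ∈ D.U q.1 := htU (h.map_source hx1)
  have hyW : (⟨q.1, ⟨h x', hy⟩⟩ : EtPt D) ∈ W := by
    have : (⟨h x', hy⟩ : {x : E // x ∈ D.U q.1}) ∈ Sigma.mk q.1 ⁻¹' W := by
      rw [← hOW]
      exact hx2
    exact this
  exact ⟨⟨q.1, ⟨h x', hy⟩⟩, hyW, ((etMk_eq_iff hD ⟨i, x'⟩ ⟨q.1, ⟨h x', hy⟩⟩).2 (hRh x' hx1)).symm⟩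

theorem etX_nonempty (hD : D.Good) : Nonempty (EtX hD) := by
  obtain ⟨i⟩ := hD.nonempty
  obtain ⟨x, hx⟩ := (hD.conn i).nonempty
  exact ⟨etMk hD ⟨i, ⟨x, hx⟩⟩⟩

open Classical in
/-- the projection of the domain number `i` -/
def etPi (hD : D.Good) (i : D.ι) (x : E) : EtX hD :=
  if h : x ∈ D.U i then etMk hD ⟨i, ⟨x, h⟩⟩ else Classical.choice (etX_nonempty hD)

theorem etPi_of_mem (hD : D.Good) {i : D.ι} {x : E} (h : x ∈ D.U i) :
    etPi hD i x = etMk hD ⟨i, ⟨x, h⟩⟩ := by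
  rw [etPi, dif_pos h]

theorem etPi_eq_iff (hD : D.Good) {i j : D.ι} {x y : E} (hx : x ∈ D.U i) (hy : y ∈ D.U j) :
    etPi hD i x = etPi hD j y ↔ D.R i x j y := by
  rw [etPi_of_mem hD hx, etPi_of_mem hD hy, etMk_eq_iff]

theorem etPi_surj (hD : D.Good) (a : EtX hD) : ∃ i, ∃ x ∈ D.U i, etPi hD i x = a := by
  obtain ⟨p, hp⟩ := etMk_surj hD a
  exact ⟨p.1, p.2, p.2.2, by rw [etPi_of_mem hD p.2.2]; exact hp⟩

theorem etPi_contOn (hD : D.Good) (i : D.ι) : ContinuousOn (etPi hD i) (D.U i) := by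
  rw [continuousOn_iff_continuous_domRestrict]
  have h1 : (D.U i).domRestrict (etPi hD i) = fun x => etMk hD ⟨i, x⟩ := by
    funext x
    exact etPi_of_mem hD x.2
  rw [h1]
  exact (etMk_cont hD).comp continuous_sigmaMk

theorem etPi_image_open (hD : D.Good) (i : D.ι) {V : Set E} (hV : IsOpen V) (hs : V ⊆ D.U i) :
    IsOpen (etPi hD i '' V) := by
  have h1 : etPi hD i '' V =
      etMk hD '' (Sigma.mk i '' ((Subtype.val : {x : E // x ∈ D.U i} → E) ⁻¹' V)) := by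
    ext a
    constructor
    · rintro ⟨x, hx, rfl⟩
      exact ⟨⟨i, ⟨x, hs hx⟩⟩, ⟨⟨x, hs hx⟩, hx, rfl⟩, (etPi_of_mem hD (hs hx)).symm⟩
    · rintro ⟨_, ⟨x, hx, rfl⟩, rfl⟩
      exact ⟨x, hx, etPi_of_mem hD x.2⟩
  rw [h1]
  exact etMk_open hD _ (isOpenMap_sigmaMk _ (hV.preimage continuous_subtype_val))

/-- the inverse of the chart with the domain `V`, an open set on which the projection is
injective -/
def etPhi (hD : D.Good) (i : D.ι) (V : Set E) (hV : IsOpen V) (hs : V ⊆ D.U i)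
    (hinj : Set.InjOn (etPi hD i) V) : OpenPartialHomeomorph E (EtX hD) :=
  OpenPartialHomeomorph.ofContinuousOpenRestrict (hinj.toPartialEquiv (etPi hD i) V)
    ((etPi_contOn hD i).mono hs)
    (by
      intro O hO
      have h1 : IsOpen ((Subtype.val : V → E) '' O) := hV.isOpenMap_subtype_val _ hO
      have h2 := etPi_image_open hD i h1 (by
        rintro _ ⟨x, -, rfl⟩
        exact hs x.2)
      rw [Set.image_image] at h2
      exact h2)
    hV

section
variable (hD : D.Good) (i : D.ι) (V : Set E) (hV : IsOpen V) (hs : V ⊆ D.U i)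
    (hinj : Set.InjOn (etPi hD i) V)

theorem etPhi_source : (etPhi hD i V hV hs hinj).source = V := rfl

theorem etPhi_target : (etPhi hD i V hV hs hinj).target = etPi hD i '' V := rfl

theorem etPhi_apply (x : E) : etPhi hD i V hV hs hinj x = etPi hD i x := rfl

theorem etPhi_symm_apply {x : E} (hx : x ∈ V) :
    (etPhi hD i V hV hs hinj).symm (etPi hD i x) = x :=
  (etPhi hD i V hV hs hinj).left_inv hx

end

/-- the charts -/
def etAtlas (hD : D.Good) : Set (OpenPartialHomeomorph (EtX hD) E) :=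
  {e | ∃ (i : D.ι) (V : Set E) (hV : IsOpen V) (hs : V ⊆ D.U i)
    (hinj : Set.InjOn (etPi hD i) V), e = (etPhi hD i V hV hs hinj).symm}

/-- small neighbourhoods -/
theorem et_small (hD : D.Good) (i : D.ι) {x : E} (hx : x ∈ D.U i) :
    ∃ V : Set E, IsOpen V ∧ x ∈ V ∧ V ⊆ D.U i ∧ Set.InjOn (etPi hD i) V := by
  obtain ⟨V, hV, hinj⟩ := hD.inj i x hx
  obtain ⟨W, hWV, hW, hxW⟩ := mem_nhds_iff.1 hV
  refine ⟨W ∩ D.U i, hW.inter (hD.isOpen i), ⟨hxW, hx⟩, Set.inter_subset_right, ?_⟩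
  intro y hy z hz hyz
  exact hinj y ⟨hWV hy.1, hy.2⟩ z ⟨hWV hz.1, hz.2⟩ ((etPi_eq_iff hD hy.2 hz.2).1 hyz)

theorem et_chart (hD : D.Good) (a : EtX hD) : ∃ e ∈ etAtlas hD, a ∈ e.source := by
  obtain ⟨i, x, hx, rfl⟩ := etPi_surj hD a
  obtain ⟨V, hV, hxV, hs, hinj⟩ := et_small hD i hx
  refine ⟨_, ⟨i, V, hV, hs, hinj, rfl⟩, ?_⟩
  exact ⟨x, hxV, rfl⟩

instance etCharted (hD : D.Good) : ChartedSpace E (EtX hD) where
  atlas := etAtlas hD
  chartAt a := Classical.choose (et_chart hD a)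
  mem_chart_source a := (Classical.choose_spec (et_chart hD a)).2
  chart_mem_atlas a := (Classical.choose_spec (et_chart hD a)).1

/-- transition maps are locally given by the maps of `etale` -/
theorem et_trans (hD : D.Good) {i j : D.ι} {V W : Set E} (hsV : V ⊆ D.U i)
    (hW : IsOpen W) (hsW : W ⊆ D.U j)
    (hiW : Set.InjOn (etPi hD j) W) {a : E} (ha : a ∈ V) (hb : etPi hD i a ∈ etPi hD j '' W) :
    ∃ h : OpenPartialHomeomorph E E, a ∈ h.source ∧
      h a = (etPhi hD j W hW hsW hiW).symm (etPi hD i a) ∧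
      ContDiffOn ℂ ω h h.source ∧
      (∀ x' ∈ h.source, ∀ v w : E, levi (D.pot i) x' v w =
        levi (D.pot j) (h x') (fderiv ℂ h x' v) (fderiv ℂ h x' w)) ∧
      (fun x => (etPhi hD j W hW hsW hiW).symm (etPi hD i x)) =ᶠ[𝓝 a] h := by
  obtain ⟨b, hbW, hab⟩ := hb
  have hR : D.R i a j b := (etPi_eq_iff hD (hsV ha) (hsW hbW)).1 hab.symm
  obtain ⟨h, h1, h2, h3, h4, h5, -, h7, h8⟩ := hD.etale i j a (hsV ha) b (hsW hbW) hR
  refine ⟨h, h1, ?_, h5, h8, ?_⟩
  · rw [← hab, etPhi_symm_apply hD j W hW hsW hiW hbW, h2]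
  · have hop : IsOpen (h.source ∩ h ⁻¹' W) := h.isOpen_inter_preimage hW
    have hmem : a ∈ h.source ∩ h ⁻¹' W := by
      refine ⟨h1, ?_⟩
      show h a ∈ W
      rw [h2]
      exact hbW
    filter_upwards [hop.mem_nhds hmem] with x hx
    have hx1 : x ∈ h.source := hx.1
    have hx2 : h x ∈ W := hx.2
    have hxe : etPi hD i x = etPi hD j (h x) :=
      (etPi_eq_iff hD (h3 hx1) (h4 (h.map_source hx1))).2 (h7 x hx1)
    rw [hxe, etPhi_symm_apply hD j W hW hsW hiW hx2]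

instance etManifold (hD : D.Good) : IsManifold 𝓘(ℂ, E) ω (EtX hD) := by
  refine isManifold_of_contDiffOn _ _ _ ?_
  rintro e e' ⟨i, V, hV, hsV, hiV, rfl⟩ ⟨j, W, hW, hsW, hiW, rfl⟩
  intro a ha
  have ha1 : a ∈ ((etPhi hD i V hV hsV hiV).symm.symm ≫ₕ (etPhi hD j W hW hsW hiW).symm).source :=
    ha.1
  have haV : a ∈ V := ha1.1
  have hb : etPi hD i a ∈ etPi hD j '' W := ha1.2
  obtain ⟨h, h1, -, h5, -, h9⟩ := et_trans hD hsV hW hsW hiW haV hb
  have h10 : ContDiffAt ℂ ω h a := (h5 a h1).contDiffAt (h.open_source.mem_nhds h1)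
  exact (h10.congr_of_eventuallyEq h9).contDiffWithinAt

theorem etT2 (hD : D.Good) : T2Space (EtX hD) := by
  have hq : IsOpenQuotientMap (etMk hD) := ⟨etMk_surj hD, etMk_cont hD, etMk_open hD⟩
  rw [t2Space_iff_of_isOpenQuotientMap hq]
  rw [← closure_subset_iff_isClosed]
  rintro ⟨⟨i, x⟩, ⟨j, y⟩⟩ hpq
  show etMk hD ⟨i, x⟩ = etMk hD ⟨j, y⟩
  rw [etMk_eq_iff]
  apply hD.closed i j x x.2 y y.2
  rw [mem_closure_iff]
  intro O hO hxy
  rw [mem_closure_iff] at hpq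
  let emb : {x : E // x ∈ D.U i} × {x : E // x ∈ D.U j} → EtPt D × EtPt D :=
    Prod.map (fun a => (⟨i, a⟩ : EtPt D)) (fun b => (⟨j, b⟩ : EtPt D))
  have hoi : ∀ k : D.ι, IsOpenMap (fun a : {x : E // x ∈ D.U k} => (⟨k, a⟩ : EtPt D)) :=
    fun k => isOpenMap_sigmaMk (σ := fun i : D.ι => {x : E // x ∈ D.U i}) (i := k)
  have hemb : IsOpenMap emb := (hoi i).prodMap (hoi j)
  let O' : Set ({x : E // x ∈ D.U i} × {x : E // x ∈ D.U j}) :=
    (fun z => ((z.1 : E), (z.2 : E))) ⁻¹' O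
  have hO' : IsOpen O' := hO.preimage (by fun_prop)
  obtain ⟨z, ⟨w, hw, rfl⟩, hz⟩ := hpq (emb '' O') (hemb _ hO') ⟨(x, y), hxy, rfl⟩
  refine ⟨((w.1 : E), (w.2 : E)), hw, w.1.2, w.2.2, ?_⟩
  have hz' : etMk hD ⟨i, w.1⟩ = etMk hD ⟨j, w.2⟩ := hz
  rw [etMk_eq_iff] at hz'
  exact hz'

theorem etCompact (hD : D.Good) : CompactSpace (EtX hD) := by
  refine ⟨?_⟩
  have := hD.fin
  have h1 : (Set.univ : Set (EtX hD)) = ⋃ i, etPi hD i '' D.K i := by
    symm
    rw [Set.eq_univ_iff_forall]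
    intro a
    obtain ⟨i, x, hx, rfl⟩ := etPi_surj hD a
    obtain ⟨j, y, hy, hR⟩ := hD.cover i x hx
    rw [Set.mem_iUnion]
    exact ⟨j, y, hy, ((etPi_eq_iff hD hx (hD.sub j hy)).2 hR).symm⟩
  rw [h1]
  exact isCompact_iUnion fun i => (hD.compact i).image_of_continuousOn
    ((etPi_contOn hD i).mono (hD.sub i))

theorem etConnected (hD : D.Good) : ConnectedSpace (EtX hD) := by
  have h1 : (⋃ i, etPi hD i '' D.U i) = (Set.univ : Set (EtX hD)) := by
    rw [Set.eq_univ_iff_forall]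
    intro a
    obtain ⟨i, x, hx, rfl⟩ := etPi_surj hD a
    rw [Set.mem_iUnion]
    exact ⟨i, x, hx, rfl⟩
  have h2 : IsPreconnected (⋃ i, etPi hD i '' D.U i) := by
    apply IsPreconnected.iUnion_of_reflTransGen
    · intro i
      exact (hD.conn i).isPreconnected.image _ (etPi_contOn hD i)
    · intro i j
      have h3 : ∀ k l : D.ι, (∃ x ∈ D.U k, ∃ y ∈ D.U l, D.R k x l y) →
          ((etPi hD k '' D.U k) ∩ (etPi hD l '' D.U l)).Nonempty := by
        rintro k l ⟨x, hx, y, hy, hR⟩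
        exact ⟨etPi hD k x, ⟨x, hx, rfl⟩, ⟨y, hy, ((etPi_eq_iff hD hx hy).2 hR).symm⟩⟩
      have h4 := hD.link i j
      induction h4 with
      | refl => exact Relation.ReflTransGen.refl
      | tail _ h5 ih => exact ih.tail (h3 _ _ h5)
  rw [h1] at h2
  exact { isPreconnected_univ := h2, toNonempty := etX_nonempty hD }

open Classical in
/-- potentials -/
def etPot (hD : D.Good) (e : OpenPartialHomeomorph (EtX hD) E) : E → ℝ :=
  if h : e ∈ etAtlas hD then D.pot (Classical.choose h) else fun _ => 0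

theorem etPot_spec (hD : D.Good) {e : OpenPartialHomeomorph (EtX hD) E} (he : e ∈ etAtlas hD) :
    ∃ (i : D.ι) (V : Set E) (hV : IsOpen V) (hs : V ⊆ D.U i)
      (hinj : Set.InjOn (etPi hD i) V), e = (etPhi hD i V hV hs hinj).symm ∧
        etPot hD e = D.pot i := by
  obtain ⟨V, hV, hs, hinj, h⟩ := Classical.choose_spec he
  exact ⟨Classical.choose he, V, hV, hs, hinj, h, by rw [etPot, dif_pos he]⟩

/-- the Kähler structure -/
def etKahler (hD : D.Good) : KahlerStructure (EtX hD) where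
  charts := etAtlas hD
  pot := etPot hD
  mem_atlas e he := IsManifold.subset_maximalAtlas he
  cover a := et_chart hD a
  smooth e he := by
    obtain ⟨i, V, hV, hs, hinj, rfl, hp⟩ := etPot_spec hD he
    rw [hp]
    exact (hD.smooth i).mono hs
  pos e he p hpt v hv := by
    obtain ⟨i, V, hV, hs, hinj, rfl, hp⟩ := etPot_spec hD he
    rw [hp]
    exact (hD.good i p (hs hpt)).1 v hv
  compat e he e' he' a ha v w := by
    obtain ⟨i, V, hV, hs, hinj, rfl, hp⟩ := etPot_spec hD he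
    obtain ⟨j, W, hW, hs', hinj', rfl, hp'⟩ := etPot_spec hD he'
    obtain ⟨x, hx, hxa⟩ : a ∈ etPi hD i '' V := ha.1
    have hb : a ∈ etPi hD j '' W := ha.2
    have hea : (etPhi hD i V hV hs hinj).symm a = x := by
      rw [← hxa, etPhi_symm_apply hD i V hV hs hinj hx]
    obtain ⟨h, h1, h2, -, h8, h9⟩ := et_trans hD hs hW hs' hinj' hx (by rw [hxa]; exact hb)
    rw [hp, hp', hea]
    have h10 : (((etPhi hD j W hW hs' hinj').symm) ∘ ((etPhi hD i V hV hs hinj).symm.symm)) =ᶠ[𝓝 x]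
        h := h9
    rw [h10.fderiv_eq]
    have h11 : (etPhi hD j W hW hs' hinj').symm a = h x := by
      rw [h2, hxa]
    rw [h11]
    exact h8 x h1 v w

theorem etNeg (hD : D.Good) : (etKahler hD).NegRicPerp := by
  intro e he p hpt e₁ e₂ hu
  obtain ⟨i, V, hV, hs, hinj, rfl, hp⟩ := etPot_spec hD he
  have hu' : UnitaryFrame (etPot hD (etPhi hD i V hV hs hinj).symm) p e₁ e₂ := hu
  rw [hp] at hu'
  show orthBisec (etPot hD (etPhi hD i V hV hs hinj).symm) p e₁ e₂ < 0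
  rw [hp]
  exact (hD.good i p (hs hpt)).2 e₁ e₂ hu'

theorem etHol (hD : D.Good) (n : ℕ) (f : EtX hD → ℙ ℂ (Fin (n + 1) → ℂ)) (hf : HolToProj n f)
    (i : D.ι) (x : E) (hx : x ∈ D.U i) :
    ∃ V : Set E, IsOpen V ∧ x ∈ V ∧ V ⊆ D.U i ∧ ∃ F : E → (Fin (n + 1) → ℂ),
      DifferentiableOn ℂ F V ∧
        ∀ y ∈ V, ∃ h : F y ≠ 0, f (etPi hD i y) = Projectivization.mk ℂ (F y) h := by
  obtain ⟨e, he, hxe, F, hF, hFf⟩ := hf (etPi hD i x)
  obtain ⟨W, hW, hxW, hs, hinj⟩ := et_small hD i hx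
  have he' : (etPhi hD i W hW hs hinj).symm ∈ IsManifold.maximalAtlas 𝓘(ℂ, E) ω (EtX hD) :=
    IsManifold.subset_maximalAtlas ⟨i, W, hW, hs, hinj, rfl⟩
  have hcomp := IsManifold.compatible_of_mem_maximalAtlas he' he
  have hcd : ContDiffOn ℂ ω (fun y => e (etPi hD i y))
      ((etPhi hD i W hW hs hinj).symm.symm ≫ₕ e).source := by
    have h1 := hcomp.1
    have h2 : ContDiffOn ℂ ω (fun y => e (etPi hD i y))
        (((etPhi hD i W hW hs hinj).symm.symm ≫ₕ e).source ∩ Set.range (id : E → E)) := h1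
    rw [Set.range_id, Set.inter_univ] at h2
    exact h2
  refine ⟨((etPhi hD i W hW hs hinj).symm.symm ≫ₕ e).source,
    ((etPhi hD i W hW hs hinj).symm.symm ≫ₕ e).open_source, ⟨hxW, hxe⟩,
    fun y hy => hs hy.1, fun y => F (e (etPi hD i y)), ?_, ?_⟩
  · have h3 : DifferentiableOn ℂ (fun y => e (etPi hD i y))
        ((etPhi hD i W hW hs hinj).symm.symm ≫ₕ e).source := hcd.differentiableOn (by simp)
    exact hF.comp h3 fun y hy => e.map_source hy.2
  · intro y hy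
    exact hFf (etPi hD i y) hy.2

/-- **ETALE** -/
theorem st_ETALE : ST_ETALE := by
  intro D hD
  refine ⟨EtX hD, etTop hD, etCharted hD, etPi hD, etManifold hD, etCompact hD, etT2 hD,
    etConnected hD, ⟨etKahler hD, etNeg hD⟩, ?_, ?_⟩
  · intro i j x hx y hy
    exact etPi_eq_iff hD hx hy
  · intro n f hf i x hx
    exact etHol hD n f hf i x hx

end RicP

end
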