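import Pool.Agent.Helper88.Ric.Stmts

/-!
MP_092777_ag, module GET: the relation `GR` is given by the local biholomorphisms `hGam`.
-/

set_option autoImplicit false

open scoped ContDiff Manifold Topology MatrixGroups LinearAlgebra.Projectivization
open Complex

noncomputable section

namespace RicP

theorem get_jj_ne (γ : SL(2, ℤ)) {τ : ℂ} (hτ : 0 < τ.im) : jj γ τ ≠ 0 := by
  intro h
  unfold jj at h
  have him := congrArg Complex.im h
  have hre := congrArg Complex.re h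
  simp at him hre
  rcases him with him | him
  · rw [him] at hre
    have hdet := Matrix.SpecialLinearGroup.det_coe γ
    rw [Matrix.det_fin_two] at hdet
    rw [him] at hdet
    have h3 : (γ 1 1 : ℤ) = 0 := by
      have h4 : ((γ 1 1 : ℤ) : ℝ) = 0 := by simpa using hre
      exact_mod_cast h4
    rw [h3] at hdet
    simp at hdet
  · exact absurd him hτ.ne'

theorem get_re_mul (z : ℂ) (n : ℤ) : (z * (n : ℂ)).re = z.re * (n : ℝ) := by
  simp

/-- the key identity -/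
theorem get_key (M : ModData) (t : ℝ) (γ : SL(2, ℤ)) (ζ' : ℂ) {τ : ℂ} (hτ : 0 < τ.im) :
    sF M t ζ' (mob γ τ) * jj γ τ = sF M t (ζ' * (M.χ γ : ℂ)) τ +
      ((t * (ζ' * M.V₁ γ).re : ℝ) : ℂ) * τ + ((t * (ζ' * M.V₂ γ).re : ℝ) : ℂ) := by
  have hj := get_jj_ne γ hτ
  have hm : mob γ τ * jj γ τ = ((γ 0 0 : ℤ) : ℂ) * τ + ((γ 0 1 : ℤ) : ℂ) := by
    unfold mob
    exact div_mul_cancel₀ _ hj
  have p1 := M.period₁ γ τ hτ
  have p2 := M.period₂ γ τ hτ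
  have r1 : (ζ' * M.F₁ (mob γ τ)).re * ((γ 0 0 : ℤ) : ℝ) +
      (ζ' * M.F₂ (mob γ τ)).re * ((γ 1 0 : ℤ) : ℝ) =
      (ζ' * (M.χ γ : ℂ) * M.F₁ τ).re + (ζ' * M.V₁ γ).re := by
    have h := congrArg (fun z : ℂ => (ζ' * z).re) p1
    simp only [mul_add, ← mul_assoc, Complex.add_re, get_re_mul] at h
    exact h
  have r2 : (ζ' * M.F₁ (mob γ τ)).re * ((γ 0 1 : ℤ) : ℝ) +
      (ζ' * M.F₂ (mob γ τ)).re * ((γ 1 1 : ℤ) : ℝ) =
      (ζ' * (M.χ γ : ℂ) * M.F₂ τ).re + (ζ' * M.V₂ γ).re := by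
    have h := congrArg (fun z : ℂ => (ζ' * z).re) p2
    simp only [mul_add, ← mul_assoc, Complex.add_re, get_re_mul] at h
    exact h
  have c1 := congrArg (fun x : ℝ => (x : ℂ)) r1
  have c2 := congrArg (fun x : ℝ => (x : ℂ)) r2
  push_cast at c1 c2
  unfold sF
  push_cast
  have e1 : ((t : ℂ) * (((ζ' * M.F₁ (mob γ τ)).re : ℂ) * mob γ τ +
      ((ζ' * M.F₂ (mob γ τ)).re : ℂ))) * jj γ τ =
      (t : ℂ) * (((ζ' * M.F₁ (mob γ τ)).re : ℂ) * (mob γ τ * jj γ τ) +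
      ((ζ' * M.F₂ (mob γ τ)).re : ℂ) * jj γ τ) := by ring
  rw [e1, hm]
  unfold jj
  linear_combination (t : ℂ) * τ * c1 + (t : ℂ) * c2

theorem get_zet (M : ModData) (N : ℕ) (q q' : QN M N) (γ : SL(2, ℤ))
    (h : (q : SL(2, ZMod N) × ℂˣ) = (q' : SL(2, ZMod N) × ℂˣ) * hN M N γ) :
    zet M q = zet M q' * (M.χ γ : ℂ) := by
  unfold zet
  rw [h, Prod.snd_mul, Units.val_mul]
  rfl

theorem get_iff (M : ModData) (N : ℕ) (t : ℝ) (q q' : QN M N) (γ : SL(2, ℤ)) (m n : ℤ)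
    (h : (q : SL(2, ZMod N) × ℂˣ) = (q' : SL(2, ZMod N) × ℂˣ) * hN M N γ) (y y' : E)
    (hy : 0 < y.1.im) (h1 : y'.1 = mob γ y.1) :
    ((y'.2 - sF M t (zet M q') y'.1) * jj γ y.1
      = y.2 - sF M t (zet M q) y.1 + (m : ℂ) * y.1 + (n : ℂ)) ↔
    y'.2 = (y.2 + ((m + t * (zet M q' * M.V₁ γ).re : ℝ) : ℂ) * y.1 +
      ((n + t * (zet M q' * M.V₂ γ).re : ℝ) : ℂ)) / jj γ y.1 := by
  have hj := get_jj_ne γ hy
  have hk := get_key M t γ (zet M q') hy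
  rw [← get_zet M N q q' γ h] at hk
  rw [h1, eq_div_iff hj]
  push_cast at hk ⊢
  constructor
  · intro h2
    linear_combination h2 + hk
  · intro h2
    linear_combination h2 - hk

/-- **GET** -/
theorem st_GET (hB : ST_BOR) : ST_GET := by
  rintro M N t q q' x x' hx ⟨γ, m, n, hq, h1, h2⟩
  refine ⟨γ, m + t * (zet M q' * M.V₁ γ).re, n + t * (zet M q' * M.V₂ γ).re, ?_, ?_, ?_⟩
  · have h3 := (get_iff M N t q q' γ m n hq x x' hx h1).1 h2
    unfold hGam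
    ext1
    · exact h1
    · exact h3
  · intro y hy
    refine ⟨γ, m, n, hq, rfl, ?_⟩
    exact (get_iff M N t q q' γ m n hq y (hGam γ (m + t * (zet M q' * M.V₁ γ).re)
      (n + t * (zet M q' * M.V₂ γ).re) y) hy rfl).2 rfl
  · intro hγ
    obtain ⟨s, -, -, -, -, hV1, hV2, -⟩ := hB M γ hγ
    refine ⟨m, n, ?_, ?_⟩
    · rw [hV1]
      simp
    · rw [hV2]
      simp

end RicP

end
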