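import Pool.Agent.Helper88.Ric.Stmts

/-!
MP_092777_ag, module ZSM: smoothness and positivity of the theta functions `Zk`, smoothness of
`potD`.
-/

set_option autoImplicit false

open scoped ContDiff Manifold Topology MatrixGroups LinearAlgebra.Projectivization
open Complex

noncomputable section

namespace RicP

/-! ### Two-variable power series with a sparse set of exponents -/

/-- terms of the partial derivatives of order `(i, j)` -/
def zsT (a b : ℤ → ℕ) (i j : ℕ) (n : ℤ) (p : ℝ × ℝ) : ℝ :=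
  (((a n).descFactorial i : ℕ) : ℝ) * (((b n).descFactorial j : ℕ) : ℝ) *
    (p.1 ^ (a n - i) * p.2 ^ (b n - j))

/-- partial derivatives of order `(i, j)` -/
def zsG (a b : ℤ → ℕ) (i j : ℕ) (p : ℝ × ℝ) : ℝ := ∑' n : ℤ, zsT a b i j n p

theorem zsT_deriv (a b : ℤ → ℕ) (i j : ℕ) (n : ℤ) (p : ℝ × ℝ) :
    HasFDerivAt (zsT a b i j n)
      (zsT a b (i + 1) j n p • ContinuousLinearMap.fst ℝ ℝ ℝ +
        zsT a b i (j + 1) n p • ContinuousLinearMap.snd ℝ ℝ ℝ) p := by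
  have h1 : HasFDerivAt (fun q : ℝ × ℝ => q.1 ^ (a n - i))
      ((((a n - i : ℕ) : ℝ) * p.1 ^ (a n - i - 1)) • ContinuousLinearMap.fst ℝ ℝ ℝ) p :=
    (hasDerivAt_pow (a n - i) p.1).comp_hasFDerivAt p hasFDerivAt_fst
  have h2 : HasFDerivAt (fun q : ℝ × ℝ => q.2 ^ (b n - j))
      ((((b n - j : ℕ) : ℝ) * p.2 ^ (b n - j - 1)) • ContinuousLinearMap.snd ℝ ℝ ℝ) p :=
    (hasDerivAt_pow (b n - j) p.2).comp_hasFDerivAt p hasFDerivAt_snd
  have h3 := (h1.mul h2).const_mul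
    ((((a n).descFactorial i : ℕ) : ℝ) * (((b n).descFactorial j : ℕ) : ℝ))
  refine h3.congr_fderiv ?_
  have e1 : a n - i - 1 = a n - (i + 1) := by omega
  have e2 : b n - j - 1 = b n - (j + 1) := by omega
  ext
  · simp [zsT, Nat.descFactorial_succ, e1]
    ring
  · simp [zsT, Nat.descFactorial_succ, e2]
    ring

theorem zsT_bound (a b : ℤ → ℕ) (i j : ℕ) (n : ℤ) {p : ℝ × ℝ} {ρ σ : ℝ} (h1 : |p.1| ≤ ρ)
    (h2 : |p.2| ≤ σ) : |zsT a b i j n p| ≤ zsT a b i j n (ρ, σ) := by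
  have hρ : 0 ≤ ρ := (abs_nonneg _).trans h1
  unfold zsT
  rw [abs_mul, abs_mul, abs_mul, Nat.abs_cast, Nat.abs_cast, abs_pow, abs_pow]
  gcongr

theorem zsG_deriv (a b : ℤ → ℕ) {ρ σ : ℝ} (hρ : 0 < ρ) (hσ : 0 < σ)
    (hs : ∀ i j, Summable fun n => zsT a b i j n (ρ, σ)) (i j : ℕ) {p : ℝ × ℝ}
    (hp1 : |p.1| < ρ) (hp2 : |p.2| < σ) :
    HasFDerivAt (zsG a b i j)
      (zsG a b (i + 1) j p • ContinuousLinearMap.fst ℝ ℝ ℝ +
        zsG a b i (j + 1) p • ContinuousLinearMap.snd ℝ ℝ ℝ) p := by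
  have hsum : ∀ i j, ∀ q : ℝ × ℝ, |q.1| ≤ ρ → |q.2| ≤ σ → Summable fun n => zsT a b i j n q := by
    intro i j q h1 h2
    refine Summable.of_norm_bounded (hs i j) fun n => ?_
    rw [Real.norm_eq_abs]
    exact zsT_bound a b i j n h1 h2
  have key := hasFDerivAt_tsum_of_isPreconnected (𝕜 := ℝ) (f := fun n => zsT a b i j n)
    (f' := fun n q => zsT a b (i + 1) j n q • ContinuousLinearMap.fst ℝ ℝ ℝ +
        zsT a b i (j + 1) n q • ContinuousLinearMap.snd ℝ ℝ ℝ)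
    (u := fun n => zsT a b (i + 1) j n (ρ, σ) + zsT a b i (j + 1) n (ρ, σ))
    (s := Metric.ball (0 : ℝ) ρ ×ˢ Metric.ball (0 : ℝ) σ) (x₀ := (0, 0)) (x := p)
    ((hs (i + 1) j).add (hs i (j + 1)))
    (Metric.isOpen_ball.prod Metric.isOpen_ball)
    (((convex_ball _ _).prod (convex_ball _ _)).isPreconnected)
    (fun n q _ => zsT_deriv a b i j n q)
    (by
      rintro n q ⟨hq1, hq2⟩
      have hq1' : |q.1| ≤ ρ := by
        have := hq1
        rw [mem_ball_zero_iff, Real.norm_eq_abs] at this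
        exact this.le
      have hq2' : |q.2| ≤ σ := by
        have := hq2
        rw [mem_ball_zero_iff, Real.norm_eq_abs] at this
        exact this.le
      refine (norm_add_le _ _).trans ?_
      rw [norm_smul, norm_smul, Real.norm_eq_abs, Real.norm_eq_abs]
      have h1 := zsT_bound a b (i + 1) j n hq1' hq2'
      have h2 := zsT_bound a b i (j + 1) n hq1' hq2'
      have h3 := ContinuousLinearMap.norm_fst_le (𝕜 := ℝ) (E := ℝ) (F := ℝ)
      have h4 := ContinuousLinearMap.norm_snd_le (𝕜 := ℝ) (E := ℝ) (F := ℝ)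
      have h5 : |zsT a b (i + 1) j n q| * ‖ContinuousLinearMap.fst ℝ ℝ ℝ‖ ≤
          zsT a b (i + 1) j n (ρ, σ) * 1 :=
        mul_le_mul h1 h3 (norm_nonneg _) ((abs_nonneg _).trans h1)
      have h6 : |zsT a b i (j + 1) n q| * ‖ContinuousLinearMap.snd ℝ ℝ ℝ‖ ≤
          zsT a b i (j + 1) n (ρ, σ) * 1 :=
        mul_le_mul h2 h4 (norm_nonneg _) ((abs_nonneg _).trans h2)
      show _ ≤ zsT a b (i + 1) j n (ρ, σ) + zsT a b i (j + 1) n (ρ, σ)
      linarith)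
    (by simp [hρ, hσ])
    (hsum i j (0, 0) (by simpa using hρ.le) (by simpa using hσ.le))
    (by simpa using ⟨hp1, hp2⟩)
  refine key.congr_fderiv ?_
  have s1 := hsum (i + 1) j p hp1.le hp2.le
  have s2 := hsum i (j + 1) p hp1.le hp2.le
  rw [(s1.smul_const _).tsum_add (s2.smul_const _), s1.tsum_smul_const, s2.tsum_smul_const]
  rfl

theorem zs_open (ρ σ : ℝ) : IsOpen {p : ℝ × ℝ | |p.1| < ρ ∧ |p.2| < σ} :=
  (isOpen_lt (continuous_fst.abs) continuous_const).inter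
    (isOpen_lt (continuous_snd.abs) continuous_const)

theorem zsG_smooth (a b : ℤ → ℕ) {ρ σ : ℝ} (hρ : 0 < ρ) (hσ : 0 < σ)
    (hs : ∀ i j, Summable fun n => zsT a b i j n (ρ, σ)) (m : ℕ) : ∀ (i j : ℕ),
    ContDiffOn ℝ m (zsG a b i j) {p : ℝ × ℝ | |p.1| < ρ ∧ |p.2| < σ} := by
  have hop : IsOpen {p : ℝ × ℝ | |p.1| < ρ ∧ |p.2| < σ} := zs_open ρ σ
  induction m with
  | zero =>
    intro i j
    rw [Nat.cast_zero, contDiffOn_zero]
    intro p hp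
    exact (zsG_deriv a b hρ hσ hs i j hp.1 hp.2).continuousAt.continuousWithinAt
  | succ m ih =>
    intro i j
    rw [Nat.cast_succ, contDiffOn_succ_iff_fderiv_of_isOpen hop]
    refine ⟨fun p hp =>
      (zsG_deriv a b hρ hσ hs i j hp.1 hp.2).differentiableAt.differentiableWithinAt, ?_, ?_⟩
    · intro h
      exact absurd h (by simp)
    · have h1 : ContDiffOn ℝ m (fun p => zsG a b (i + 1) j p • ContinuousLinearMap.fst ℝ ℝ ℝ +
          zsG a b i (j + 1) p • ContinuousLinearMap.snd ℝ ℝ ℝ)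
          {p : ℝ × ℝ | |p.1| < ρ ∧ |p.2| < σ} :=
        ((ih (i + 1) j).smul contDiffOn_const).add ((ih i (j + 1)).smul contDiffOn_const)
      exact h1.congr fun p hp => (zsG_deriv a b hρ hσ hs i j hp.1 hp.2).fderiv

/-! ### Summability -/

theorem zs_geom {q M : ℝ} (hq0 : 0 ≤ q) (hq1 : q < 1) (hM : 0 ≤ M) :
    Summable fun n : ℕ => M ^ n * q ^ (n.choose 2) := by
  refine summable_of_ratio_norm_eventually_le (r := 1 / 2) (by norm_num) ?_
  have h1 : Filter.Tendsto (fun n : ℕ => M * q ^ n) Filter.atTop (𝓝 (M * 0)) :=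
    (tendsto_pow_atTop_nhds_zero_of_lt_one hq0 hq1).const_mul M
  rw [mul_zero] at h1
  filter_upwards [h1.eventually (gt_mem_nhds (show (0 : ℝ) < 1 / 2 by norm_num))] with n hn
  have h2 : (n + 1).choose 2 = n + n.choose 2 := by
    rw [Nat.choose_succ_succ' n 1, Nat.choose_one_right]
  have h3 : M ^ (n + 1) * q ^ ((n + 1).choose 2) = (M * q ^ n) * (M ^ n * q ^ (n.choose 2)) := by
    rw [h2]
    ring
  have h4 : 0 ≤ M ^ n * q ^ (n.choose 2) := by positivity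
  rw [h3, norm_mul, Real.norm_of_nonneg h4, Real.norm_of_nonneg (by positivity)]
  exact mul_le_mul_of_nonneg_right hn.le h4

theorem zs_desc (a i : ℕ) {ρ : ℝ} (hρ : 0 < ρ) :
    ((a.descFactorial i : ℕ) : ℝ) * ρ ^ (a - i) ≤ (a : ℝ) ^ i * (ρ ^ a * (ρ ^ i)⁻¹) := by
  rcases Nat.lt_or_ge a i with h | h
  · rw [(Nat.descFactorial_eq_zero_iff_lt).2 h]
    simp only [Nat.cast_zero, zero_mul]
    positivity
  · have h1 : ρ ^ a * (ρ ^ i)⁻¹ = ρ ^ (a - i) := by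
      exact (pow_sub₀ ρ hρ.ne' h).symm
    rw [h1]
    have h2 : ((a.descFactorial i : ℕ) : ℝ) ≤ (a : ℝ) ^ i := by
      exact_mod_cast Nat.descFactorial_le_pow a i
    exact mul_le_mul_of_nonneg_right h2 (by positivity)

theorem zs_sum_nat {k : ℕ} (hk : 1 ≤ k) {ρ σ : ℝ} (hρ : 0 < ρ) (hσ : 0 < σ) (h : ρ * σ < 1)
    (i j : ℕ) : Summable fun n : ℕ =>
      (((k * (n + 1).choose 2).descFactorial i : ℕ) : ℝ) *
        (((k * n.choose 2).descFactorial j : ℕ) : ℝ) *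
        (ρ ^ (k * (n + 1).choose 2 - i) * σ ^ (k * n.choose 2 - j)) := by
  have hq1 : (ρ * σ) ^ k < 1 := pow_lt_one₀ (by positivity) h (by omega)
  have h1 := zs_geom (q := (ρ * σ) ^ k) (M := 2 ^ (i + j) * ρ ^ k) (by positivity) hq1
    (by positivity)
  refine Summable.of_nonneg_of_le (fun n => by positivity) (fun n => ?_)
    (h1.mul_left ((2 * (k : ℝ)) ^ (i + j) * ((ρ ^ i)⁻¹ * (σ ^ j)⁻¹)))
  have d1 := zs_desc (k * (n + 1).choose 2) i hρ
  have d2 := zs_desc (k * n.choose 2) j hσ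
  have c1 : ((k * (n + 1).choose 2 : ℕ) : ℝ) ≤ 2 * k * 2 ^ n := by
    have : (n + 1).choose 2 ≤ 2 ^ (n + 1) := Nat.choose_le_two_pow _ _
    have h2 : (((n + 1).choose 2 : ℕ) : ℝ) ≤ 2 ^ (n + 1) := by exact_mod_cast this
    push_cast
    calc (k : ℝ) * ((n + 1).choose 2 : ℝ) ≤ k * 2 ^ (n + 1) :=
          mul_le_mul_of_nonneg_left h2 (Nat.cast_nonneg _)
      _ = 2 * k * 2 ^ n := by ring
  have c2 : ((k * n.choose 2 : ℕ) : ℝ) ≤ 2 * k * 2 ^ n := by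
    have : n.choose 2 ≤ 2 ^ n := Nat.choose_le_two_pow _ _
    have h2 : ((n.choose 2 : ℕ) : ℝ) ≤ 2 ^ n := by exact_mod_cast this
    push_cast
    calc (k : ℝ) * (n.choose 2 : ℝ) ≤ k * 2 ^ n :=
          mul_le_mul_of_nonneg_left h2 (Nat.cast_nonneg _)
      _ ≤ 2 * k * 2 ^ n := by
          have : (0 : ℝ) ≤ k * 2 ^ n := by positivity
          linarith
  have e1 : (n + 1).choose 2 = n + n.choose 2 := by
    rw [Nat.choose_succ_succ' n 1, Nat.choose_one_right]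
  calc (((k * (n + 1).choose 2).descFactorial i : ℕ) : ℝ) *
        (((k * n.choose 2).descFactorial j : ℕ) : ℝ) *
        (ρ ^ (k * (n + 1).choose 2 - i) * σ ^ (k * n.choose 2 - j))
      = ((((k * (n + 1).choose 2).descFactorial i : ℕ) : ℝ) * ρ ^ (k * (n + 1).choose 2 - i)) *
        ((((k * n.choose 2).descFactorial j : ℕ) : ℝ) * σ ^ (k * n.choose 2 - j)) := by ring
    _ ≤ (((k * (n + 1).choose 2 : ℕ) : ℝ) ^ i * (ρ ^ (k * (n + 1).choose 2) * (ρ ^ i)⁻¹)) *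
        (((k * n.choose 2 : ℕ) : ℝ) ^ j * (σ ^ (k * n.choose 2) * (σ ^ j)⁻¹)) :=
        mul_le_mul d1 d2 (by positivity) (by positivity)
    _ ≤ ((2 * (k : ℝ) * 2 ^ n) ^ i * (ρ ^ (k * (n + 1).choose 2) * (ρ ^ i)⁻¹)) *
        ((2 * (k : ℝ) * 2 ^ n) ^ j * (σ ^ (k * n.choose 2) * (σ ^ j)⁻¹)) := by
        gcongr
    _ = (2 * (k : ℝ)) ^ (i + j) * ((ρ ^ i)⁻¹ * (σ ^ j)⁻¹) *
        ((2 ^ (i + j) * ρ ^ k) ^ n * ((ρ * σ) ^ k) ^ (n.choose 2)) := by
        rw [e1]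
        ring

theorem zsm_exA_nat (k n : ℕ) : exA k (n : ℤ) = k * (n + 1).choose 2 := by
  unfold exA
  congr 1
  rw [Nat.choose_two_right]
  have h : ((n : ℤ) * ((n : ℤ) + 1) / 2) = (((n + 1) * (n + 1 - 1) / 2 : ℕ) : ℤ) := by
    rw [Nat.add_sub_cancel]
    push_cast
    rw [mul_comm]
  rw [h, Int.toNat_natCast]

theorem zsm_exB_nat (k n : ℕ) : exB k (n : ℤ) = k * n.choose 2 := by
  unfold exB
  congr 1
  rw [Nat.choose_two_right]
  have h : ((n : ℤ) * ((n : ℤ) - 1) / 2) = ((n * (n - 1) / 2 : ℕ) : ℤ) := by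
    rcases Nat.eq_zero_or_pos n with h0 | h0
    · subst h0
      simp
    · push_cast [Nat.cast_sub h0]
      rfl
  rw [h, Int.toNat_natCast]

theorem zsm_exA_neg (k : ℕ) (n : ℤ) : exA k (-n) = exB k n := by
  unfold exA exB
  congr 3
  ring

theorem zsm_exB_neg (k : ℕ) (n : ℤ) : exB k (-n) = exA k n := by
  unfold exA exB
  congr 3
  ring

theorem zs_sum {k : ℕ} (hk : 1 ≤ k) {ρ σ : ℝ} (hρ : 0 < ρ) (hσ : 0 < σ) (h : ρ * σ < 1)
    (i j : ℕ) : Summable fun n => zsT (exA k) (exB k) i j n (ρ, σ) := by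
  refine Summable.of_nat_of_neg ?_ ?_
  · have h1 := zs_sum_nat hk hρ hσ h i j
    refine h1.congr fun n => ?_
    simp only [zsT, zsm_exA_nat, zsm_exB_nat]
  · have h1 := zs_sum_nat hk hσ hρ (by rwa [mul_comm]) j i
    refine h1.congr fun n => ?_
    simp only [zsT, zsm_exA_neg, zsm_exB_neg, zsm_exA_nat, zsm_exB_nat]
    ring

/-! ### The theta functions -/

theorem zs_pow (k : ℕ) (m : ℤ) (hm : Even m) (hm0 : 0 ≤ m) (x : ℝ) :
    x ^ (k * m.toNat) = (x ^ 2) ^ (k * (m / 2).toNat) := by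
  obtain ⟨r, rfl⟩ := hm
  have h1 : (r + r) / 2 = r := by omega
  rw [h1, ← pow_mul]
  congr 1
  have h2 : (r + r).toNat = 2 * r.toNat := by omega
  rw [h2]
  ring

theorem zsm_Zk_eq (k : ℕ) (p : E) :
    Zk k p = zsG (exA k) (exB k) 0 0 (‖p.1‖ ^ 2, ‖p.2‖ ^ 2) := by
  unfold Zk zsG
  refine tsum_congr fun n => ?_
  have h1 : Even (n * (n + 1)) := Int.even_mul_succ_self n
  have h2 : Even (n * (n - 1)) := by
    have := Int.even_mul_succ_self (n - 1)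
    rw [sub_add_cancel, mul_comm] at this
    exact this
  have h3 : 0 ≤ n * (n + 1) := by
    rcases le_or_gt 0 n with h | h
    · positivity
    · nlinarith
  have h4 : 0 ≤ n * (n - 1) := by
    rcases le_or_gt n 0 with h | h
    · nlinarith
    · exact mul_nonneg h.le (by linarith)
  rw [zs_pow k _ h1 h3, zs_pow k _ h2 h4]
  simp [zsT, exA, exB]

theorem zs_box (p : E) (hp : ‖p.1 * p.2‖ < 1) : ∃ ρ σ : ℝ, 0 < ρ ∧ 0 < σ ∧ ρ * σ < 1 ∧
    ‖p.1‖ ^ 2 < ρ ∧ ‖p.2‖ ^ 2 < σ := by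
  have h1 : ‖p.1‖ ^ 2 * ‖p.2‖ ^ 2 < 1 := by
    rw [norm_mul] at hp
    have h2 : 0 ≤ ‖p.1‖ * ‖p.2‖ := by positivity
    nlinarith
  have hc : Filter.Tendsto (fun ε : ℝ => (‖p.1‖ ^ 2 + ε) * (‖p.2‖ ^ 2 + ε)) (𝓝[>] 0)
      (𝓝 ((‖p.1‖ ^ 2 + 0) * (‖p.2‖ ^ 2 + 0))) := by
    apply Filter.Tendsto.mono_left _ nhdsWithin_le_nhds
    apply Continuous.tendsto
    fun_prop
  rw [add_zero, add_zero] at hc
  have h3 := hc.eventually (gt_mem_nhds h1)
  obtain ⟨ε, hε, hε0⟩ := (h3.and self_mem_nhdsWithin).exists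
  have hε0' : 0 < ε := hε0
  exact ⟨‖p.1‖ ^ 2 + ε, ‖p.2‖ ^ 2 + ε, by positivity, by positivity, hε, by linarith,
    by linarith⟩

theorem st_ZSM : ST_ZSM := by
  intro k hk
  constructor
  · intro p hp
    apply ContDiffAt.contDiffWithinAt
    obtain ⟨ρ, σ, hρ, hσ, hρσ, h1, h2⟩ := zs_box p hp
    have hs := fun i j => zs_sum hk hρ hσ hρσ i j
    have hG : ContDiffOn ℝ ∞ (zsG (exA k) (exB k) 0 0) {p : ℝ × ℝ | |p.1| < ρ ∧ |p.2| < σ} :=
      contDiffOn_infty.2 fun m => zsG_smooth (exA k) (exB k) hρ hσ hs m 0 0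
    have hop : IsOpen {p : ℝ × ℝ | |p.1| < ρ ∧ |p.2| < σ} := zs_open ρ σ
    have hmem : (‖p.1‖ ^ 2, ‖p.2‖ ^ 2) ∈ {p : ℝ × ℝ | |p.1| < ρ ∧ |p.2| < σ} := by
      refine ⟨?_, ?_⟩
      · show |‖p.1‖ ^ 2| < ρ
        rw [abs_of_nonneg (by positivity)]
        exact h1
      · show |‖p.2‖ ^ 2| < σ
        rw [abs_of_nonneg (by positivity)]
        exact h2
    have hGa : ContDiffAt ℝ ∞ (zsG (exA k) (exB k) 0 0) (‖p.1‖ ^ 2, ‖p.2‖ ^ 2) :=
      hG.contDiffAt (hop.mem_nhds hmem)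
    have hu : ContDiff ℝ ∞ (fun q : E => (‖q.1‖ ^ 2, ‖q.2‖ ^ 2)) :=
      (contDiff_fst.norm_sq ℝ).prodMk (contDiff_snd.norm_sq ℝ)
    have hcomp : ContDiffAt ℝ ∞
        (fun q : E => zsG (exA k) (exB k) 0 0 (‖q.1‖ ^ 2, ‖q.2‖ ^ 2)) p :=
      ContDiffAt.comp (g := zsG (exA k) (exB k) 0 0) p hGa hu.contDiffAt
    exact hcomp.congr_of_eventuallyEq (Filter.Eventually.of_forall fun q => zsm_Zk_eq k q)
  · intro p hp
    obtain ⟨ρ, σ, hρ, hσ, hρσ, h1, h2⟩ := zs_box p hp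
    rw [zsm_Zk_eq]
    have hs : Summable fun n => zsT (exA k) (exB k) 0 0 n (‖p.1‖ ^ 2, ‖p.2‖ ^ 2) := by
      refine Summable.of_norm_bounded (zs_sum hk hρ hσ hρσ 0 0) fun n => ?_
      rw [Real.norm_eq_abs]
      refine zsT_bound _ _ _ _ _ ?_ ?_
      · show |‖p.1‖ ^ 2| ≤ ρ
        rw [abs_of_nonneg (by positivity)]
        exact h1.le
      · show |‖p.2‖ ^ 2| ≤ σ
        rw [abs_of_nonneg (by positivity)]
        exact h2.le
    refine hs.tsum_pos (fun n => ?_) 0 ?_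
    · unfold zsT
      positivity
    · simp [zsT, exA, exB]

theorem st_SMD : ST_SMD := by
  have hz : ∀ k : ℕ, 1 ≤ k → ContDiffOn ℝ ∞ (fun p : E => Real.log (Zk k p))
      {p : E | ‖p.1 * p.2‖ < 1} := fun k hk =>
    (st_ZSM k hk).1.log fun p hp => ((st_ZSM k hk).2 p hp).ne'
  have hxy : ContDiff ℝ ∞ (fun p : E => ‖p.1 * p.2‖ ^ 2) :=
    (contDiff_fst.mul contDiff_snd).norm_sq ℝ
  have h1 : ContDiffOn ℝ ∞ (fun p : E => Real.log (1 - ‖p.1 * p.2‖ ^ 2))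
      {p : E | ‖p.1 * p.2‖ < 1} := by
    refine (contDiff_const.sub hxy).contDiffOn.log fun p hp => ?_
    have hp' : ‖p.1 * p.2‖ < 1 := hp
    have := pow_lt_one₀ (norm_nonneg (p.1 * p.2)) hp' (two_ne_zero)
    linarith
  have h4 : ContDiffOn ℝ ∞ (fun p : E => Real.log (1 - ‖p.1 * p.2‖ ^ 8))
      {p : E | ‖p.1 * p.2‖ < 1} := by
    have h5 : ContDiff ℝ ∞ (fun p : E => ‖p.1 * p.2‖ ^ 8) := by
      have h6 : (fun p : E => ‖p.1 * p.2‖ ^ 8) = fun p : E => (‖p.1 * p.2‖ ^ 2) ^ 4 := by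
        funext p
        ring
      rw [h6]
      exact hxy.pow 4
    refine (contDiff_const.sub h5).contDiffOn.log fun p hp => ?_
    have hp' : ‖p.1 * p.2‖ < 1 := hp
    have := pow_lt_one₀ (norm_nonneg (p.1 * p.2)) hp' (show (8 : ℕ) ≠ 0 by norm_num)
    linarith
  have h := ((((contDiffOn_const (c := (4 : ℝ))).mul (hz 1 le_rfl)).add
    ((contDiffOn_const (c := (10 : ℝ))).mul (hz 2 (by norm_num)))).add
    ((contDiffOn_const (c := (8 : ℝ))).mul (hz 4 (by norm_num)))).sub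
    ((contDiffOn_const (c := (5 : ℝ))).mul h1) |>.sub
    ((contDiffOn_const (c := (7 : ℝ))).mul h4)
  exact h

end RicP

end
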